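import Pool.Agent.Q262.CycFinal

set_option autoImplicit false

namespace Pool.Agent.Results.MP_7a0dfe_nt.StrictLowerBound

open Q262.Hgt

/-- For all odd primes `p < q` and every `b > 2`, the largest height `B(p q^b)` of a divisor of
`X^{p q^b} - 1` in `ℤ[X]` is at least `p (p + 1) / 2`; in particular it is larger than `p`. -/
theorem result (p q b : ℕ) (hp : p.Prime) (hq : q.Prime) (h2 : p ≠ 2) (hpq : p < q)
    (hb : 2 < b) :
    IsGreatest (divisorHeights (p * q ^ b)) (maxDivisorHeight (p * q ^ b)) ∧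
      p < maxDivisorHeight (p * q ^ b) ∧ p * (p + 1) ≤ 2 * maxDivisorHeight (p * q ^ b) := by
  have h := three_le hp hq h2 hpq hb
  refine ⟨isGreatest_maxDivisorHeight _ (Nat.mul_pos hp.pos (pow_pos hq.pos _)), ?_, h⟩
  have hp3 : 3 ≤ p := by
    have := hp.two_le
    omega
  nlinarith

end Pool.Agent.Results.MP_7a0dfe_nt.StrictLowerBound
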